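import Pool.Agent.W844.VG.Basic

/-!
# MP_b4265e_pr: local connectedness of the infinite cluster
-/

set_option autoImplicit false

open Finset
open scoped Classical
open Pool.Agent.W844.VG

namespace Pool.Agent.W932.VG

variable {d : ℕ}

/-- both ends of the edge are in the ball -/
def In2 (c : V d) (R : ℕ) (e : E d) : Prop := nm (e.1 - c) ≤ R ∧ nm (e.1 + stp e.2 - c) ≤ R

lemma le_of_not_in2 {c : V d} {R : ℕ} {e : E d} (h : ¬ In2 c R e) : R ≤ nm (e.1 - c) := by
  by_contra hlt
  refine h ⟨by omega, ?_⟩
  have h1 := nm_add_stp_le (e.1 - c) e.2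
  have h2 : e.1 - c + stp e.2 = e.1 + stp e.2 - c := by abel
  rw [h2] at h1
  omega

/-- a two-valued function without boundary on the open edges is constant on the clusters -/
lemma const_cluster {O : Set (E d)} {g : V d → ZMod 2} (h : ∀ e ∈ bd g, e ∉ O) {x y : V d}
    (hxy : (gr O).Reachable x y) : g y = g x := by
  rw [SimpleGraph.reachable_iff_reflTransGen] at hxy
  induction hxy with
  | refl => rfl
  | @tail b c _ hbc ih =>
    rw [← ih]
    obtain ⟨i, ⟨rfl, hi⟩ | ⟨rfl, hi⟩⟩ := hbc
    · by_contra hne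
      exact h (b, i) hne hi
    · by_contra hne
      exact h (c, i) (Ne.symm hne) hi

theorem join : S_CUT → S_ANN → S_BOX → S_SIMPLE → S_JOIN := by
  intro hcut hann hbox hsimple d hd O c R m hchain u v hu hv huR hvR
  by_contra hno
  let A : Set (V d) := {x | JoinIn O c R u x}
  have hAball : ∀ x ∈ A, nm (x - c) ≤ R := by
    intro x hx
    rcases Relation.ReflTransGen.cases_tail (show Relation.ReflTransGen _ u x from hx) with
      h | ⟨b, -, hb⟩
    · rw [h]; omega
    · exact hb.2.2
  let g : V d → ZMod 2 := fun x => if x ∈ A then 1 else 0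
  have hgu : g u = 1 := if_pos (show JoinIn O c R u u from Relation.ReflTransGen.refl)
  have hgv : g v = 0 := if_neg hno
  have hbd1 : ∀ e ∈ bd g, (e.1 ∈ A ∧ e.1 + stp e.2 ∉ A) ∨ (e.1 ∉ A ∧ e.1 + stp e.2 ∈ A) := by
    intro e he
    have he' : g (e.1 + stp e.2) ≠ g e.1 := he
    by_cases h1 : e.1 ∈ A <;> by_cases h2 : e.1 + stp e.2 ∈ A
    · exact absurd (by simp only [g, if_pos h1, if_pos h2]) he'
    · exact Or.inl ⟨h1, h2⟩
    · exact Or.inr ⟨h1, h2⟩
    · exact absurd (by simp only [g, if_neg h1, if_neg h2]) he'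
  have hbdO : ∀ e ∈ bd g, In2 c R e → e ∉ O := by
    intro e he hin heO
    rcases hbd1 e he with ⟨h1, h2⟩ | ⟨h1, h2⟩
    · exact h2 (Relation.ReflTransGen.tail h1 ⟨gr_adj_step heO, hin.1, hin.2⟩)
    · exact h1 (Relation.ReflTransGen.tail h2 ⟨(gr_adj_step heO).symm, hin.2, hin.1⟩)
  have hbdfin : (bd g).Finite := by
    refine (finite_edge_ball c (R + 1)).subset fun e he => ?_
    show nm (e.1 - c) ≤ R + 1
    rcases hbd1 e he with ⟨h1, -⟩ | ⟨-, h2⟩
    · have := hAball _ h1; omega
    · have h3 := hAball _ h2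
      have h4 := le_nm_add_stp (e.1 - c) e.2
      have h5 : e.1 - c + stp e.2 = e.1 + stp e.2 - c := by abel
      rw [h5] at h4
      omega
  obtain ⟨g', hsub, hne, hstar⟩ := hcut d g u v hbdfin (by rw [hgu, hgv]; exact one_ne_zero)
  have hclosed : ∀ e ∈ bd g', In2 c R e → e ∉ O := fun e he => hbdO e (hsub he)
  by_cases hall : ∀ e ∈ bd g', In2 c R e
  · have hcl : ∀ e ∈ bd g', e ∉ O := fun e he => hclosed e he (hall e he)
    have hlt : ∀ e ∈ bd g', ∀ f ∈ bd g', nm (f.1 - e.1) < m := by
      intro e he f hf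
      by_contra hge
      exact hchain e (hall e he).1 (hsimple d O (bd g') hcl hstar e he f hf m (by omega))
    have hnemp : ∃ e, e ∈ bd g' := by
      by_contra hemp
      push Not at hemp
      refine hne (hbox d (ZMod 2) g' c R (fun x i _ _ => ?_) u v (by omega) (by omega))
      by_contra h
      exact hemp (x, i) h
    obtain ⟨e, he⟩ := hnemp
    have hfar : ∀ w ∈ InfV O, ∃ x, g' x = g' w ∧ m < nm (x - e.1) := by
      intro w hw
      by_contra hcon
      push Not at hcon
      refine hw ((finite_ball e.1 m).subset fun y hy => ?_)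
      exact hcon y (const_cluster hcl hy)
    obtain ⟨xu, hxu, hxu'⟩ := hfar u hu
    obtain ⟨xv, hxv, hxv'⟩ := hfar v hv
    have := hann d hd (ZMod 2) g' e.1 m (max (nm (xu - e.1)) (nm (xv - e.1)))
      (fun x i h1 _ _ _ => by
        by_contra h
        have := hlt e he (x, i) h
        simp only at this
        omega) xu xv hxu' (le_max_left _ _) hxv' (le_max_right _ _)
    rw [hxu, hxv] at this
    exact hne this
  · push Not at hall
    obtain ⟨f0, hf0, hf0'⟩ := hall
    have hfarP : ∀ e ∈ bd g', R ≤ nm (e.1 - c) + m := by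
      intro e he
      by_cases hein : In2 c R e
      · let r : E d → E d → Prop := fun a b => (a ∈ bd g' ∧ In2 c R a) ∧
          (b ∈ bd g' ∧ In2 c R b) ∧ nm (b.1 - a.1) ≤ 1
        have hrs : ∀ a b, r a b → r b a := by
          rintro a b ⟨h1, h2, h3⟩
          exact ⟨h2, h1, by rw [nm_sub_comm]; exact h3⟩
        have hrsymm : ∀ a b, Relation.ReflTransGen r a b → Relation.ReflTransGen r b a := by
          intro a b h
          induction h with
          | refl => exact Relation.ReflTransGen.refl
          | tail _ h2 ih => exact Relation.ReflTransGen.head (hrs _ _ h2) ih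
        let S : Set (E d) := {a | (a ∈ bd g' ∧ In2 c R a) ∧ Relation.ReflTransGen r e a}
        have heS : e ∈ S := ⟨⟨he, hein⟩, Relation.ReflTransGen.refl⟩
        have hSstar : StarConn S := by
          intro a ha b hb
          have h1 : Relation.ReflTransGen r a b := (hrsymm _ _ ha.2).trans hb.2
          have h2 : ∀ z, Relation.ReflTransGen r a z → z ∈ S ∧ Relation.ReflTransGen
              (fun a b => a ∈ S ∧ b ∈ S ∧ nm (b.1 - a.1) ≤ 1) a z := by
            intro z hz
            induction hz with
            | refl => exact ⟨ha, Relation.ReflTransGen.refl⟩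
            | @tail p q _ hpq ih =>
              have hq : q ∈ S := ⟨hpq.2.1, ih.1.2.tail hpq⟩
              exact ⟨hq, ih.2.tail ⟨ih.1, hq, hpq.2.2⟩⟩
          exact (h2 b h1).2
        have hSlt : ∀ a ∈ S, nm (a.1 - e.1) < m := by
          intro a ha
          by_contra hge
          exact hchain e hein.1 (hsimple d O S (fun b hb => hclosed b hb.1.1 hb.1.2) hSstar
            e heS a ha m (by omega))
        have hT : ∀ z, Relation.ReflTransGen
            (fun a b => a ∈ bd g' ∧ b ∈ bd g' ∧ nm (b.1 - a.1) ≤ 1) e z →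
            z ∈ S ∨ ∃ f, ¬ In2 c R f ∧ ∃ a ∈ S, nm (f.1 - a.1) ≤ 1 := by
          intro z hz
          induction hz with
          | refl => exact Or.inl heS
          | @tail p q _ hpq ih =>
            rcases ih with hp | h
            · by_cases hq : In2 c R q
              · exact Or.inl ⟨⟨hpq.2.1, hq⟩, hp.2.tail ⟨hp.1, ⟨hpq.2.1, hq⟩, hpq.2.2⟩⟩
              · exact Or.inr ⟨q, hq, p, hp, hpq.2.2⟩
            · exact Or.inr h
        rcases hT f0 (hstar e he f0 hf0) with h | ⟨f, hf, a, ha, hfa⟩
        · exact absurd h.1.2 hf0'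
        · have h1 := le_of_not_in2 hf
          have h2 := hSlt a ha
          have h3 := nm_tri f.1 a.1 c
          have h4 := nm_tri a.1 e.1 c
          omega
      · have := le_of_not_in2 hein
        omega
    refine hne (hbox d (ZMod 2) g' c (R - m - 1) (fun x i h1 _ => ?_) u v (by omega) (by omega))
    by_contra h
    have := hfarP (x, i) h
    simp only at this
    omega

end Pool.Agent.W932.VG
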