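import Pool.Agent.W932.VG.Wen

/-!
# MP_b4265e_pr: local regularity of the cluster
-/

set_option autoImplicit false

open Finset
open scoped Classical
open Pool.Agent.W844.VG

namespace Pool.Agent.W932.VG

variable {d : ℕ}

lemma log_add (v : V d) (k : ℕ) :
    Nat.log 2 (nm v + k + 2) ≤ ell v + Nat.log 2 (k + 2) + 1 := by
  have h1 : nm v + 2 < 2 ^ (ell v + 1) := Nat.lt_pow_succ_log_self (by norm_num) _
  have h2 : k + 2 < 2 ^ (Nat.log 2 (k + 2) + 1) := Nat.lt_pow_succ_log_self (by norm_num) _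
  have h3 : nm v + k + 2 < 2 ^ (ell v + Nat.log 2 (k + 2) + 1 + 1) := by
    calc nm v + k + 2 ≤ (nm v + 2) * (k + 2) := by nlinarith [Nat.zero_le (nm v * k)]
      _ < 2 ^ (ell v + 1) * 2 ^ (Nat.log 2 (k + 2) + 1) :=
          Nat.mul_lt_mul_of_lt_of_lt h1 h2
      _ = 2 ^ (ell v + Nat.log 2 (k + 2) + 1 + 1) := by ring
  have h4 := Nat.log_lt_of_lt_pow (by omega) h3
  omega

lemma log_lin (F R : ℕ) : 4 * (F * Nat.log 2 (R + 2)) ≤ 2 * (R + 2) + 4 * F ^ 2 := by
  set j := Nat.log 2 (R + 2)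
  have h2 : 2 ^ j ≤ R + 2 := Nat.pow_log_le_self 2 (by omega)
  have h2' : j ^ 2 ≤ 2 * 2 ^ j := sq_le_two_mul_two_pow _
  have h3 : 4 * (F * j) ≤ j ^ 2 + 4 * F ^ 2 := by
    have : (0 : ℤ) ≤ ((j : ℤ) - 2 * F) ^ 2 := sq_nonneg _
    zify
    nlinarith
  omega

theorem loc : S_NEAR → S_JOIN → S_BOX → S_LOC := by
  intro hnear hjoin _ d hd O ⟨N0, hN0⟩
  set D := d + 2 with hD
  set a := 8 * D ^ 2 + 4 * D + 2 + N0 with ha
  set b := 2 * (3 * a + 8 + 4 * D) + 32 * D ^ 2 + 2 + N0 with hb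
  refine ⟨a, b, by omega, fun v => ?_, fun v x y hx hy hxv hyv => ?_⟩
  · by_contra hcon
    push Not at hcon
    obtain ⟨k, hk, hch⟩ := hnear d hd O v (a * ell v) ⟨0, by omega⟩
      (fun x hx hxi => by have := hcon x hxi; omega)
    have he := one_le_ell v
    have h1 : a ≤ a * ell v := Nat.le_mul_of_pos_right a he
    have h2 : nm (v + (k : ℤ) • stp (⟨0, by omega⟩ : Fin d)) ≤ nm v + k := by
      have := nm_add_le v ((k : ℤ) • stp (⟨0, by omega⟩ : Fin d))
      rw [nm_zsmul_stp] at this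
      simpa using this
    refine hN0 (nm v + k) (by omega) _ h2 (hch.mono ?_ subset_rfl)
    show D * Nat.log 2 (nm v + k + 2) ≤ k
    have h3 := log_add v k
    have h4 := log_lin (2 * D) k
    set j := Nat.log 2 (k + 2)
    have h5 : D * Nat.log 2 (nm v + k + 2) ≤ D * (ell v + j + 1) := Nat.mul_le_mul_left D h3
    have h6 : D ≤ D * ell v := Nat.le_mul_of_pos_right D he
    have h7 : 8 * D ^ 2 + 2 ≤ (8 * D ^ 2 + 2) * ell v := Nat.le_mul_of_pos_right _ he
    have h8 : a * ell v = (8 * D ^ 2 + 2) * ell v + 4 * (D * ell v) + N0 * ell v := by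
      rw [ha]; ring
    have h9 : 4 * (2 * D * j) = 8 * (D * j) := by ring
    have h10 : (2 * D) ^ 2 = 4 * D ^ 2 := by ring
    have h11 : D * (ell v + j + 1) = D * ell v + D * j + D := by ring
    rw [h9, h10] at h4
    have h12 := Nat.zero_le (N0 * ell v)
    omega
  · have he := one_le_ell v
    have h1 : b ≤ b * ell v := Nat.le_mul_of_pos_right b he
    have hkey : 3 * a * ell v + 2 * (D * Nat.log 2 (nm v + b * ell v + 2)) + 8 ≤ b * ell v := by
      have h3 := log_add v (b * ell v)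
      have h4 := log_lin (4 * D) (b * ell v)
      set j := Nat.log 2 (b * ell v + 2)
      have h5 : D * Nat.log 2 (nm v + b * ell v + 2) ≤ D * (ell v + j + 1) :=
        Nat.mul_le_mul_left D h3
      have h6 : D ≤ D * ell v := Nat.le_mul_of_pos_right D he
      have h7 : 32 * D ^ 2 + 2 ≤ (32 * D ^ 2 + 2) * ell v := Nat.le_mul_of_pos_right _ he
      have h8 : b * ell v = (32 * D ^ 2 + 2) * ell v + 6 * (a * ell v) + 16 * ell v +
          8 * (D * ell v) + N0 * ell v := by
        rw [hb]; ring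
      have h9 : 4 * (4 * D * j) = 16 * (D * j) := by ring
      have h10 : (4 * D) ^ 2 = 16 * D ^ 2 := by ring
      have h11 : D * (ell v + j + 1) = D * ell v + D * j + D := by ring
      have h13 : 3 * a * ell v = 3 * (a * ell v) := by ring
      rw [h9, h10] at h4
      rw [h13]
      have h12 := Nat.zero_le (N0 * ell v)
      omega
    refine hjoin d hd O v (b * ell v) (lg d (nm v + b * ell v)) (fun e he => ?_) x y hx hy ?_ ?_
    · refine hN0 _ (by omega) e ?_
      have := nm_le_add e.1 v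
      omega
    · show nm (x - v) + 2 * (D * Nat.log 2 (nm v + b * ell v + 2)) + 8 ≤ b * ell v
      omega
    · show nm (y - v) + 2 * (D * Nat.log 2 (nm v + b * ell v + 2)) + 8 ≤ b * ell v
      omega

end Pool.Agent.W932.VG
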