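import Pool.Agent.W844.VG.Basic

/-!
# MP_b4265e_pr: capacity potentials and their superlevel sets
-/

set_option autoImplicit false

open Finset
open scoped Classical
open Pool.Agent.W844.VG

namespace Pool.Agent.W932.VG

variable {d : ℕ}

/-- energy term of an edge -/
noncomputable def tm (O : Set (E d)) (f : V d → ℝ) (v : V d) (i : Fin d) : ℝ :=
  if (v, i) ∈ O then (f (v + stp i) - f v) ^ 2 else 0

lemma en_eq (O : Set (E d)) (f : V d → ℝ) (n : ℕ) :
    en O f n = ∑ i : Fin d, ∑ v ∈ box d n, tm O f v i := by
  unfold en tm
  rw [sum_comm]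

lemma stp_ne_zero (i : Fin d) : (stp i : V d) ≠ 0 := by
  intro h
  have := congrFun h i
  simp [stp] at this

lemma add_stp_ne (x : V d) (i : Fin d) : x + stp i ≠ x := fun h =>
  stp_ne_zero i (by simpa using h)

lemma sub_stp_ne (x : V d) (i : Fin d) : x - stp i ≠ x := fun h =>
  stp_ne_zero i (by simpa using h)

/-- a sum over edges only involving the edges at `x` -/
lemma sum_edges_at (n : ℕ) (x : V d) (hx : nm x ≤ n) (F : V d → Fin d → ℝ)
    (h : ∀ v i, v ≠ x → v + stp i ≠ x → F v i = 0) :
    ∑ i : Fin d, ∑ v ∈ box d (n + 1), F v i = ∑ i : Fin d, (F x i + F (x - stp i) i) := by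
  refine sum_congr rfl fun i _ => ?_
  refine sum_eq_add_of_mem x (x - stp i) (mem_box.mpr (by omega)) (mem_box.mpr ?_)
    (sub_stp_ne x i).symm ?_
  · have := nm_sub_stp_le x i; omega
  · rintro c - ⟨h1, h2⟩
    refine h c i h1 fun h3 => h2 ?_
    rw [← h3]; simp

/-- change of the energy when one value is changed -/
lemma en_update (O : Set (E d)) (f : V d → ℝ) (n : ℕ) (x : V d) (hx : nm x ≤ n) (s : ℝ) :
    en O (Function.update f x (f x + s)) (n + 1) - en O f (n + 1) =
      -2 * s * (∑ i : Fin d, ((if (x, i) ∈ O then f (x + stp i) - f x else 0) +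
        (if (x - stp i, i) ∈ O then f (x - stp i) - f x else 0))) +
      (∑ i : Fin d, ((if (x, i) ∈ O then (1 : ℝ) else 0) +
        (if (x - stp i, i) ∈ O then 1 else 0))) * s ^ 2 := by
  rw [en_eq, en_eq, ← sum_sub_distrib]
  simp only [← sum_sub_distrib]
  rw [sum_edges_at n x hx (fun v i => tm O (Function.update f x (f x + s)) v i - tm O f v i)]
  · rw [mul_sum, sum_mul, ← sum_add_distrib]
    refine sum_congr rfl fun i _ => ?_
    unfold tm
    simp only [Function.update_self, Function.update_of_ne (add_stp_ne x i),
      Function.update_of_ne (sub_stp_ne x i), sub_add_cancel]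
    split_ifs <;> ring
  · intro v i h1 h2
    unfold tm
    simp only [Function.update_of_ne h1, Function.update_of_ne h2, sub_self]

lemma cont_en (O : Set (E d)) (n : ℕ) : Continuous fun f : V d → ℝ => en O f n := by
  unfold en
  refine continuous_finsetSum _ fun v _ => continuous_finsetSum _ fun i _ => ?_
  split_ifs
  · fun_prop
  · exact continuous_const

/-- the admissible functions -/
def Adm (O : Set (E d)) (o : V d) (n : ℕ) : Set (V d → ℝ) :=
  {f | f o = 1 ∧ (∀ x, 0 ≤ f x ∧ f x ≤ 1) ∧ (∀ x, x ∉ InfV O → f x = 0) ∧
    (∀ x, n < nm x → f x = 0)}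

lemma compact_adm (O : Set (E d)) (o : V d) (n : ℕ) : IsCompact (Adm O o n) := by
  have h1 : IsCompact (Set.univ.pi fun _ : V d => Set.Icc (0 : ℝ) 1) :=
    isCompact_univ_pi fun _ => isCompact_Icc
  refine h1.of_isClosed_subset ?_ ?_
  · have : Adm O o n = {f | f o = 1} ∩ ((⋂ x, {f | 0 ≤ f x ∧ f x ≤ 1}) ∩
        ((⋂ x, ⋂ (_ : x ∉ InfV O), {f | f x = 0}) ∩
          ⋂ x, ⋂ (_ : n < nm x), {f | f x = 0})) := by
      ext f
      simp [Adm]
    rw [this]
    refine IsClosed.inter ?_ (IsClosed.inter ?_ (IsClosed.inter ?_ ?_))
    · exact isClosed_eq (by fun_prop) (by fun_prop)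
    · refine isClosed_iInter fun x => ?_
      exact (isClosed_le continuous_const (continuous_apply x)).inter
        (isClosed_le (continuous_apply x) continuous_const)
    · exact isClosed_iInter fun x => isClosed_iInter fun _ =>
        isClosed_eq (by fun_prop) (by fun_prop)
    · exact isClosed_iInter fun x => isClosed_iInter fun _ =>
        isClosed_eq (by fun_prop) (by fun_prop)
  · intro f hf x _
    exact ⟨(hf.2.1 x).1, (hf.2.1 x).2⟩

theorem mini : S_MIN := by
  intro d O o n ho hn
  let f0 : V d → ℝ := fun x => if x = o then 1 else 0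
  have hf0 : f0 ∈ Adm O o n := by
    refine ⟨by simp [f0], fun x => ?_, fun x hx => ?_, fun x hx => ?_⟩
    · simp only [f0]; split_ifs <;> norm_num
    · have : x ≠ o := fun h => hx (h ▸ ho)
      simp [f0, this]
    · have : x ≠ o := fun h => by subst h; omega
      simp [f0, this]
  obtain ⟨f, hf, hmin⟩ := (compact_adm O o n).exists_isMinOn ⟨f0, hf0⟩
    (cont_en O (n + 1)).continuousOn
  have hmin' : ∀ g ∈ Adm O o n, en O f (n + 1) ≤ en O g (n + 1) := fun g hg => hmin hg
  obtain ⟨h1, h2, h3, h4⟩ := hf
  refine ⟨f, h1, h2, h3, h4, ?_, ?_⟩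
  · intro x hxo hxn
    by_cases hxi : x ∈ InfV O
    · unfold HarmAt
      set H := ∑ i : Fin d, ((if (x, i) ∈ O then f (x + stp i) - f x else 0) +
        (if (x - stp i, i) ∈ O then f (x - stp i) - f x else 0)) with hH
      set D := ∑ i : Fin d, ((if (x, i) ∈ O then (1 : ℝ) else 0) +
        (if (x - stp i, i) ∈ O then 1 else 0)) with hD
      have hb1 : -(f x) * D ≤ H := by
        rw [hH, hD, mul_sum]
        refine sum_le_sum fun i _ => ?_
        have e1 := (h2 (x + stp i)).1
        have e2 := (h2 (x - stp i)).1
        split_ifs <;> linarith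
      have hb2 : H ≤ (1 - f x) * D := by
        rw [hH, hD, mul_sum]
        refine sum_le_sum fun i _ => ?_
        have e1 := (h2 (x + stp i)).2
        have e2 := (h2 (x - stp i)).2
        split_ifs <;> linarith
      have hD0 : 0 ≤ D := by
        rw [hD]
        refine sum_nonneg fun i _ => ?_
        split_ifs <;> norm_num
      rcases hD0.eq_or_lt with hD1 | hD1
      · rw [← hD1] at hb1 hb2
        linarith
      · have hs1 : 0 ≤ f x + H / D := by
          have : -(f x) ≤ H / D := by rw [le_div_iff₀ hD1]; exact hb1
          linarith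
        have hs2 : f x + H / D ≤ 1 := by
          have : H / D ≤ 1 - f x := by rw [div_le_iff₀ hD1]; exact hb2
          linarith
        have hg : Function.update f x (f x + H / D) ∈ Adm O o n := by
          refine ⟨?_, fun y => ?_, fun y hy => ?_, fun y hy => ?_⟩
          · rw [Function.update_of_ne (Ne.symm hxo)]; exact h1
          · by_cases hy : y = x
            · subst hy; rw [Function.update_self]; exact ⟨hs1, hs2⟩
            · rw [Function.update_of_ne hy]; exact h2 y
          · have : y ≠ x := fun h => hy (h ▸ hxi)
            rw [Function.update_of_ne this]; exact h3 y hy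
          · have : y ≠ x := fun h => by subst h; omega
            rw [Function.update_of_ne this]; exact h4 y hy
        have h5 := hmin' _ hg
        have h6 := en_update O f n x hxn (H / D)
        rw [← hH, ← hD] at h6
        have h7 : -2 * (H / D) * H + D * (H / D) ^ 2 = -(H ^ 2 / D) := by
          field_simp
          ring
        rw [h7] at h6
        have h8 : H ^ 2 / D ≤ 0 := by linarith
        have h9 : H ^ 2 ≤ 0 := by
          rw [div_le_iff₀ hD1] at h8; linarith
        have h10 : H ^ 2 = 0 := le_antisymm h9 (sq_nonneg H)
        exact pow_eq_zero_iff (two_ne_zero) |>.mp h10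
    · unfold HarmAt
      refine sum_eq_zero fun i _ => ?_
      have e0 := h3 x hxi
      have e1 : (x, i) ∈ O → f (x + stp i) = 0 := fun h => h3 _ fun h' =>
        hxi ((infV_step h).mpr h')
      have e2 : (x - stp i, i) ∈ O → f (x - stp i) = 0 := fun h => h3 _ fun h' =>
        hxi (by have := (infV_step h).mp h'; simpa using this)
      split_ifs with a1 a2 a2
      · rw [e1 a1, e2 a2, e0]; simp
      · rw [e1 a1, e0]; simp
      · rw [e2 a2, e0]; simp
      · simp
  · intro m
    have hA : en O f m ≤ en O f (n + 1) := by
      rcases le_total m (n + 1) with hm | hm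
      · exact en_mono hm
      · refine le_of_eq ?_
        unfold en
        symm
        refine sum_subset (fun x hx => ?_) fun v _ hv => ?_
        · rw [mem_box] at *; omega
        · rw [mem_box, not_le] at hv
          refine sum_eq_zero fun i _ => ?_
          have e1 := h4 v (by omega)
          have e2 := h4 (v + stp i) (by have := le_nm_add_stp v i; omega)
          rw [e1, e2]; simp
    have hB : en O f0 (n + 1) ≤ 2 * d := by
      rw [en_eq, sum_edges_at n o hn]
      · calc ∑ i : Fin d, (tm O f0 o i + tm O f0 (o - stp i) i) ≤ ∑ _i : Fin d, (2 : ℝ) := by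
              refine sum_le_sum fun i _ => ?_
              have e1 := add_stp_ne o i
              have e2 := sub_stp_ne o i
              have e3 : tm O f0 o i ≤ 1 := by
                unfold tm
                simp only [f0, if_neg e1]
                split_ifs <;> norm_num
              have e4 : tm O f0 (o - stp i) i ≤ 1 := by
                unfold tm
                simp only [f0, if_neg e2, sub_add_cancel]
                split_ifs <;> norm_num
              linarith
          _ = 2 * d := by simp [mul_comm]
      · intro v i a1 a2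
        unfold tm
        simp [f0, a1, a2]
    exact hA.trans ((hmin' f0 hf0).trans hB)

theorem level : S_LEVEL := by
  intro d O o n f ho hconn hf x δ hδ hx k hok hkx
  obtain ⟨h1, h2, h3, h4, h5, -⟩ := hf
  let R : V d → V d → Prop := fun s t => (gr O).Adj s t ∧ δ ≤ f t
  have hK : ∀ y, Relation.ReflTransGen R x y → δ ≤ f y := by
    intro y hy
    rcases Relation.ReflTransGen.cases_tail hy with h | ⟨c, -, hc⟩
    · rw [h]; exact hx
    · exact hc.2
  have hfin : {y | Relation.ReflTransGen R x y}.Finite := by
    refine ((box d n).finite_toSet).subset fun y hy => ?_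
    rw [mem_coe, mem_box]
    by_contra hlt
    have e1 := h4 y (by omega)
    have e2 := hK y hy
    linarith
  have hmain : Relation.ReflTransGen R x o := by
    by_contra hno
    obtain ⟨y0, hy0, hmax⟩ := Set.exists_max_image _ f hfin ⟨x, Relation.ReflTransGen.refl⟩
    have hinf : y0 ∈ InfV O := by
      by_contra h
      have e1 := h3 y0 h
      have e2 := hK y0 hy0
      linarith
    have hstep : ∀ y, (gr O).Reachable y0 y → Relation.ReflTransGen R x y ∧ f y = f y0 := by
      intro y hy
      rw [SimpleGraph.reachable_iff_reflTransGen] at hy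
      induction hy with
      | refl => exact ⟨hy0, rfl⟩
      | @tail b c _ hbc ih =>
        obtain ⟨hb1, hb2⟩ := ih
        have hbo : b ≠ o := fun h => hno (h ▸ hb1)
        have hbn : nm b ≤ n := by
          by_contra hlt
          have e1 := h4 b (by omega)
          have e2 := hK b hb1
          linarith
        have hh := h5 b hbo hbn
        unfold HarmAt at hh
        have hle : ∀ z, (gr O).Adj b z → f z ≤ f b := by
          intro z hz
          by_cases hz1 : δ ≤ f z
          · rw [hb2]; exact hmax z (hb1.tail ⟨hz, hz1⟩)
          · have := hK b hb1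
            linarith
        have hle1 : ∀ i, (if (b, i) ∈ O then f (b + stp i) - f b else 0) ≤ 0 := by
          intro i
          split_ifs with h
          · have := hle _ (gr_adj_step h); linarith
          · exact le_rfl
        have hle2 : ∀ i, (if (b - stp i, i) ∈ O then f (b - stp i) - f b else 0) ≤ 0 := by
          intro i
          split_ifs with h
          · have := hle _ (gr_adj_back h); linarith
          · exact le_rfl
        have hz := (sum_eq_zero_iff_of_nonpos (fun i _ => add_nonpos (hle1 i) (hle2 i))).mp hh
        have hcb : f c = f b := by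
          obtain ⟨i, ⟨rfl, hi⟩ | ⟨rfl, hi⟩⟩ := hbc
          · have e1 := hz i (mem_univ i)
            have e2 := hle1 i
            have e3 := hle2 i
            rw [if_pos hi] at e1 e2
            linarith
          · have e1 := hz i (mem_univ i)
            have e2 := hle1 i
            have e3 := hle2 i
            rw [add_sub_cancel_right, if_pos hi] at e1 e3
            linarith
        refine ⟨hb1.tail ⟨hbc, ?_⟩, hcb.trans hb2⟩
        rw [hcb]; exact hK b hb1
    exact hno (hstep o (hconn y0 o hinf ho)).1
  have hivt : ∀ y, Relation.ReflTransGen R x y → nm y ≤ k → ∃ z, nm z = k ∧ δ ≤ f z := by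
    intro y hy
    induction hy with
    | refl => intro h; exact ⟨x, le_antisymm h hkx, hx⟩
    | @tail b c _ hbc ih =>
      intro h
      by_cases hb : nm b ≤ k
      · exact ih hb
      · refine ⟨c, ?_, hbc.2⟩
        have e1 := nm_adj hbc.1
        have e2 := nm_le_add b c
        rw [nm_sub_comm] at e2
        omega
  exact hivt o hmain hok

end Pool.Agent.W932.VG
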