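import Pool.Agent.W844.VG.Basic

/-!
# MP_b4265e_pr: enclosing chains
-/

set_option autoImplicit false

open Finset
open scoped Classical
open Pool.Agent.W844.VG

namespace Pool.Agent.W932.VG

variable {d : ℕ}

/-- a function that changes along an axis has a boundary edge there -/
lemma exists_bd_axis (g : V d → ZMod 2) (v : V d) (i : Fin d) (M : ℕ)
    (h : g (v + (M : ℤ) • stp i) ≠ g v) : ∃ k < M, (v + (k : ℤ) • stp i, i) ∈ bd g := by
  by_contra hcon
  push Not at hcon
  have h1 : ∀ k ≤ M, g (v + (k : ℤ) • stp i) = g v := by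
    intro k
    induction k with
    | zero => intro _; simp
    | succ k ih =>
      intro hk
      have h2 := hcon k (by omega)
      rw [mem_bd, not_not] at h2
      rw [← ih (by omega), ← h2]
      congr 1
      push_cast
      rw [add_smul, one_smul, add_assoc]
  exact h (h1 M le_rfl)

theorem near : S_CUT → S_ANN → S_SIMPLE → S_NEAR := by
  intro hcut hann hsimple d hd O v L i hL
  let A : Set (V d) := {x | ∃ y, nm (y - v) ≤ L ∧ (gr O).Reachable y x}
  have hAfin : A.Finite := by
    have : A = ⋃ y ∈ {y : V d | nm (y - v) ≤ L}, {x | (gr O).Reachable y x} := by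
      ext x; simp [A]
    rw [this]
    refine (finite_ball v L).biUnion fun y hy => ?_
    have := hL y hy
    unfold InfV at this
    rw [Set.mem_ofPred_eq, Set.not_infinite] at this
    exact this
  have hball : ∀ x, nm (x - v) ≤ L → x ∈ A := fun x hx => ⟨x, hx, SimpleGraph.Reachable.refl _⟩
  obtain ⟨M, hM⟩ : ∃ M : ℕ, ∀ x ∈ A, nm (x - v) + 2 < M := by
    obtain ⟨B, hB⟩ := (hAfin.image fun x => nm (x - v)).bddAbove
    refine ⟨B + 3, fun x hx => ?_⟩
    have := hB (Set.mem_image_of_mem _ hx)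
    omega
  let g : V d → ZMod 2 := fun x => if x ∈ A then 1 else 0
  have hbd1 : ∀ e ∈ bd g, (e.1 ∈ A ∧ e.1 + stp e.2 ∉ A) ∨ (e.1 ∉ A ∧ e.1 + stp e.2 ∈ A) := by
    intro e he
    have he' : g (e.1 + stp e.2) ≠ g e.1 := he
    by_cases h1 : e.1 ∈ A <;> by_cases h2 : e.1 + stp e.2 ∈ A
    · exact absurd (by simp only [g, if_pos h1, if_pos h2]) he'
    · exact Or.inl ⟨h1, h2⟩
    · exact Or.inr ⟨h1, h2⟩
    · exact absurd (by simp only [g, if_neg h1, if_neg h2]) he'
  have hbdO : ∀ e ∈ bd g, e ∉ O := by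
    intro e he heO
    rcases hbd1 e he with ⟨⟨y, hy, hr⟩, h2⟩ | ⟨h1, ⟨y, hy, hr⟩⟩
    · exact h2 ⟨y, hy, hr.trans (gr_adj_step heO).reachable⟩
    · exact h1 ⟨y, hy, hr.trans (gr_adj_step heO).symm.reachable⟩
  have hbdM : ∀ e ∈ bd g, nm (e.1 - v) + 1 < M := by
    intro e he
    rcases hbd1 e he with ⟨h1, -⟩ | ⟨-, h2⟩
    · have := hM _ h1; omega
    · have h3 := hM _ h2
      have h4 := le_nm_add_stp (e.1 - v) e.2
      have h5 : e.1 - v + stp e.2 = e.1 + stp e.2 - v := by abel
      rw [h5] at h4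
      omega
  have hbdfin : (bd g).Finite := (finite_edge_ball v M).subset fun e he => by
    show nm (e.1 - v) ≤ M
    have := hbdM e he; omega
  have hvA : v ∈ A := hball v (by simp)
  have hzA : v + (M : ℤ) • stp i ∉ A := by
    intro h
    have := hM _ h
    rw [add_sub_cancel_left, nm_zsmul_stp] at this
    simp at this
  obtain ⟨g', hsub, hne, hstar⟩ := hcut d g v (v + (M : ℤ) • stp i) hbdfin
    (by simp only [g, if_pos hvA, if_neg hzA]; exact one_ne_zero)
  obtain ⟨k, hk, hkbd⟩ := exists_bd_axis g' v i M (Ne.symm hne)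
  have hkL : L ≤ k := by
    by_contra hlt
    have h1 : v + (k : ℤ) • stp i ∈ A := hball _ (by
      rw [add_sub_cancel_left, nm_zsmul_stp]; simp; omega)
    have h2 : v + (k : ℤ) • stp i + stp i ∈ A := hball _ (by
      have : v + (k : ℤ) • stp i + stp i - v = ((k : ℤ) + 1) • stp i := by
        rw [add_smul, one_smul]; abel
      rw [this, nm_zsmul_stp]; omega)
    rcases hbd1 _ (hsub hkbd) with h3 | h3
    · exact h3.2 h2
    · exact h3.1 h1
  -- the other side
  have hzz : g' (v + (M : ℤ) • stp i) = g' (v - (M : ℤ) • stp i) := by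
    have hMpos : 0 < M := by have := hM v hvA; omega
    refine hann d hd (ZMod 2) g' v (M - 1) M (fun x j h1 _ _ _ => ?_) _ _ ?_ ?_ ?_ ?_
    · by_contra h
      have := hbdM (x, j) (hsub h)
      simp only at this
      omega
    · rw [add_sub_cancel_left, nm_zsmul_stp]; simp; omega
    · rw [add_sub_cancel_left, nm_zsmul_stp]; simp
    · have : v - (M : ℤ) • stp i - v = (-(M : ℤ)) • stp i := by rw [neg_smul]; abel
      rw [this, nm_zsmul_stp]; simp; omega
    · have : v - (M : ℤ) • stp i - v = (-(M : ℤ)) • stp i := by rw [neg_smul]; abel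
      rw [this, nm_zsmul_stp]; simp
  obtain ⟨k', hk', hkbd'⟩ := exists_bd_axis g' (v - (M : ℤ) • stp i) i M (by
    rw [sub_add_cancel, ← hzz]; exact hne)
  refine ⟨k, hkL, hsimple d O (bd g') (fun a ha => hbdO a (hsub ha)) hstar _ hkbd _ hkbd' k ?_⟩
  have : v - (M : ℤ) • stp i + (k' : ℤ) • stp i - (v + (k : ℤ) • stp i) =
      ((k' : ℤ) - M - k) • stp i := by
    rw [sub_smul, sub_smul]; abel
  simp only [this, nm_zsmul_stp]
  omega

end Pool.Agent.W932.VG
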