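import Pool.Agent.W844.VG.Basic

/-!
# MP_b4265e_pr: Peierls estimates
-/

set_option autoImplicit false

open Finset MeasureTheory ProbabilityTheory
open scoped Classical
open Pool.Agent.W844.VG

namespace Pool.Agent.W932.VG

variable {d : ℕ}

/-- one step of a chain -/
def stepv (q : (Fin d → Fin 3) × Fin d) (e : E d) : E d :=
  (fun i => e.1 i + ((q.1 i : ℕ) : ℤ) - 1, q.2)

/-- the chain coded by a finite sequence of steps -/
def wk (e : E d) (m : ℕ) (s : Fin m → (Fin d → Fin 3) × Fin d) : ℕ → E d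
  | 0 => e
  | k + 1 => if h : k < m then stepv (s ⟨k, h⟩) (wk e m s k) else wk e m s k

lemma exists_code (e : E d) (m : ℕ) (c : ℕ → E d) (h0 : c 0 = e)
    (h : ∀ k, k < m → nm ((c (k + 1)).1 - (c k).1) ≤ 1) :
    ∃ s : Fin m → (Fin d → Fin 3) × Fin d, ∀ k, k ≤ m → wk e m s k = c k := by
  have hb : ∀ (k : Fin m) (i : Fin d),
      ((c (k + 1)).1 i - (c k).1 i + 1).toNat < 3 := by
    intro k i
    have h1 := natAbs_le_nm ((c (k + 1)).1 - (c k).1) i
    have h2 := h k k.2
    simp only [Pi.sub_apply] at h1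
    omega
  refine ⟨fun k => (fun i => ⟨((c (k + 1)).1 i - (c k).1 i + 1).toNat, hb k i⟩, (c (k + 1)).2),
    fun k => ?_⟩
  induction k with
  | zero => intro _; exact h0.symm
  | succ k ih =>
    intro hk
    have hk' : k < m := hk
    show (if h : k < m then _ else _) = _
    rw [dif_pos hk', ih (by omega)]
    unfold stepv
    refine Prod.ext ?_ rfl
    funext i
    have h1 := natAbs_le_nm ((c (k + 1)).1 - (c k).1) i
    have h2 := h k hk'
    simp only [Pi.sub_apply] at h1
    simp only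
    omega

section prob

variable {Ω : Type} [MeasurableSpace Ω] {μ : Measure Ω} {X : E d → Ω → Bool} {p : ℝ}

lemma meas_false (h : IsPerc μ X p) (e : E d) :
    μ {ω | X e ω = false} = ENNReal.ofReal (1 - p) := by
  obtain ⟨h1, h2, h3, h4⟩ := h
  have e1 : {ω | X e ω = false} = {ω | X e ω = true}ᶜ := by
    ext ω; simp
  have e2 : MeasurableSet {ω | X e ω = true} := h2 e (measurableSet_singleton true)
  have e3 : μ.real {ω | X e ω = false} = 1 - p := by
    rw [e1, probReal_compl_eq_one_sub e2, h4]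
  rw [← e3, ofReal_measureReal]

lemma meas_closed (h : IsPerc μ X p) (m : ℕ) (c : ℕ → E d)
    (hc : ∀ j k, j ≤ m → k ≤ m → c j = c k → j = k) :
    μ {ω | ∀ k, k ≤ m → c k ∉ opn X ω} = ENNReal.ofReal (1 - p) ^ (m + 1) := by
  have hinj : Function.Injective fun k : Fin (m + 1) => c k := by
    intro j k hjk
    exact Fin.ext (hc j k (by omega) (by omega) hjk)
  have h3 := iIndepFun.precomp hinj h.2.2.1
  have h4 := h3.meas_iInter (s := fun k : Fin (m + 1) => {ω | X (c k) ω = false})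
    (fun k => ⟨{false}, measurableSet_singleton false, rfl⟩)
  have h5 : {ω | ∀ k, k ≤ m → c k ∉ opn X ω} =
      ⋂ k : Fin (m + 1), {ω | X (c k) ω = false} := by
    ext ω
    simp only [Set.mem_ofPred_eq, Set.mem_iInter, opn, Bool.not_eq_true]
    exact ⟨fun h k => h k (by omega), fun h k hk => h ⟨k, by omega⟩⟩
  rw [h5, h4]
  simp only [meas_false h, prod_const, card_univ, Fintype.card_fin]

end prob

theorem pei : S_PEI := by
  intro d Ω _ μ X p h e m
  have hp : 0 ≤ 1 - p := by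
    obtain ⟨h1, h2, h3, h4⟩ := h
    have : μ.real {ω | X e ω = true} ≤ 1 := measureReal_le_one
    rw [h4] at this; linarith
  have hsub : {ω | Chain (opn X ω) e m} ⊆
      ⋃ s : Fin m → (Fin d → Fin 3) × Fin d, {ω | (∀ k, k ≤ m → wk e m s k ∉ opn X ω) ∧
        (∀ j k, j ≤ m → k ≤ m → wk e m s j = wk e m s k → j = k)} := by
    rintro ω ⟨c, h0, h1, h2, h3⟩
    obtain ⟨s, hs⟩ := exists_code e m c h0 h2
    refine Set.mem_iUnion.mpr ⟨s, fun k hk => ?_, fun j k hj hk hjk => ?_⟩
    · rw [hs k hk]; exact h1 k hk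
    · rw [hs j hj, hs k hk] at hjk; exact h3 j k hj hk hjk
  refine (measure_mono hsub).trans ((measure_iUnion_fintype_le _ _).trans ?_)
  have hone : ∀ s : Fin m → (Fin d → Fin 3) × Fin d,
      μ {ω | (∀ k, k ≤ m → wk e m s k ∉ opn X ω) ∧
        (∀ j k, j ≤ m → k ≤ m → wk e m s j = wk e m s k → j = k)} ≤
          ENNReal.ofReal (1 - p) ^ (m + 1) := by
    intro s
    by_cases hs : ∀ j k, j ≤ m → k ≤ m → wk e m s j = wk e m s k → j = k
    · rw [← meas_closed h m (wk e m s) hs]
      exact measure_mono fun ω hω => hω.1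
    · have : {ω | (∀ k, k ≤ m → wk e m s k ∉ opn X ω) ∧
        (∀ j k, j ≤ m → k ≤ m → wk e m s j = wk e m s k → j = k)} = ∅ := by
        ext ω; simp only [Set.mem_ofPred_eq, Set.mem_empty_iff_false, iff_false]
        exact fun hh => hs hh.2
      rw [this, measure_empty]
      exact zero_le
  refine (sum_le_sum fun s _ => hone s).trans ?_
  rw [sum_const, card_univ, nsmul_eq_mul]
  simp only [Fintype.card_fun, Fintype.card_prod, Fintype.card_fin]
  rw [← ENNReal.ofReal_pow hp, ENNReal.ofReal_mul (by positivity)]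
  refine le_of_eq ?_
  congr 1
  rw [ENNReal.ofReal_pow (by positivity), ENNReal.ofReal_mul (by positivity)]
  simp only [ENNReal.ofReal_natCast]
  rw [ENNReal.ofReal_pow (by positivity)]
  push_cast
  rw [ENNReal.ofReal_ofNat]
  ring

theorem aegood : S_AEGOOD := by
  intro d Ω _ μ X p h hsmall
  rcases Nat.eq_zero_or_pos d with rfl | hd
  · refine Filter.Eventually.of_forall fun ω => ⟨0, fun n _ e => ?_⟩
    exact e.2.elim0
  have hprob : IsProbabilityMeasure μ := h.1
  have e0 : E d := (0, ⟨0, hd⟩)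
  have hp1 : 0 ≤ 1 - p := by
    have : μ.real {ω | X e0 ω = true} ≤ 1 := measureReal_le_one
    rw [h.2.2.2 e0] at this; linarith
  have hp0 : 1 - p ≤ 1 := by
    have : 0 ≤ μ.real {ω | X e0 ω = true} := measureReal_nonneg
    rw [h.2.2.2 e0] at this; linarith
  let B : ℕ → Set Ω := fun n => {ω | ∃ e : E d, nm e.1 ≤ n ∧ Chain (opn X ω) e (lg d n)}
  have hB : ∀ n, μ (B n) ≤ ENNReal.ofReal (d * 4 ^ (d + 1) / ((n : ℝ) + 2) ^ 2) := by
    intro n
    have hsub : B n ⊆ ⋃ e ∈ (box d n ×ˢ (univ : Finset (Fin d))),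
        {ω | Chain (opn X ω) e (lg d n)} := by
      rintro ω ⟨e, he, hch⟩
      simp only [Set.mem_iUnion]
      exact ⟨e, mem_product.mpr ⟨mem_box.mpr he, mem_univ _⟩, hch⟩
    refine (measure_mono hsub).trans ((measure_biUnion_finset_le _ _).trans ?_)
    have hone : ∀ e ∈ (box d n ×ˢ (univ : Finset (Fin d))),
        μ {ω | Chain (opn X ω) e (lg d n)} ≤ ENNReal.ofReal ((1 / 2) ^ lg d n) := by
      intro e _
      refine (pei d Ω μ X p h e (lg d n)).trans (ENNReal.ofReal_le_ofReal ?_)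
      rw [pow_succ, ← mul_assoc, ← mul_pow]
      calc ((d : ℝ) * 3 ^ d * (1 - p)) ^ lg d n * (1 - p) ≤ (1 / 2) ^ lg d n * 1 := by
            refine mul_le_mul (pow_le_pow_left₀ (by positivity) hsmall _) hp0 hp1 (by positivity)
        _ = (1 / 2) ^ lg d n := mul_one _
    refine (sum_le_sum hone).trans ?_
    rw [sum_const, card_product, card_box, card_univ, Fintype.card_fin, nsmul_eq_mul,
      ← ENNReal.ofReal_natCast, ← ENNReal.ofReal_mul (by positivity)]
    refine ENNReal.ofReal_le_ofReal ?_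
    have h1 : ((n : ℝ) + 2) / 2 ≤ 2 ^ Nat.log 2 (n + 2) := by
      have : n + 2 < 2 ^ (Nat.log 2 (n + 2) + 1) := Nat.lt_pow_succ_log_self (by norm_num) _
      have h2 : ((n : ℝ) + 2) < 2 ^ (Nat.log 2 (n + 2) + 1) := by exact_mod_cast this
      rw [pow_succ] at h2
      linarith
    have h2 : (((n : ℝ) + 2) / 2) ^ (d + 2) ≤ 2 ^ lg d n := by
      unfold lg
      rw [mul_comm, pow_mul]
      exact pow_le_pow_left₀ (by positivity) h1 _
    have h3 : ((1 : ℝ) / 2) ^ lg d n ≤ 1 / (((n : ℝ) + 2) / 2) ^ (d + 2) := by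
      rw [div_pow, one_pow]
      exact one_div_le_one_div_of_le (by positivity) h2
    have h4 : ((2 * (n : ℝ) + 1)) ^ d ≤ 2 ^ d * ((n : ℝ) + 2) ^ d := by
      rw [← mul_pow]
      exact pow_le_pow_left₀ (by positivity) (by linarith) _
    push_cast
    calc ((2 * (n : ℝ) + 1)) ^ d * d * (1 / 2) ^ lg d n
        ≤ (2 ^ d * ((n : ℝ) + 2) ^ d) * d * (1 / (((n : ℝ) + 2) / 2) ^ (d + 2)) := by
          gcongr
      _ = d * 4 ^ (d + 1) / ((n : ℝ) + 2) ^ 2 := by
          rw [div_pow, pow_add ((n : ℝ) + 2) d 2]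
          have : ((4 : ℝ)) ^ (d + 1) = 2 ^ d * 2 ^ (d + 2) := by
            rw [← pow_add]
            have : (4 : ℝ) = 2 ^ 2 := by norm_num
            rw [this, ← pow_mul]
            congr 1; omega
          rw [this]
          field_simp
  have hsum : Summable fun n : ℕ => (d : ℝ) * 4 ^ (d + 1) / ((n : ℝ) + 2) ^ 2 := by
    have h1 : Summable fun n : ℕ => 1 / ((n : ℝ)) ^ 2 := Real.summable_one_div_nat_pow.mpr (by norm_num)
    have h2 := (summable_nat_add_iff 2).mpr h1
    refine (h2.mul_left ((d : ℝ) * 4 ^ (d + 1))).congr fun n => ?_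
    push_cast
    ring
  have hfin : (∑' n, μ (B n)) ≠ ⊤ := by
    refine ne_top_of_le_ne_top ?_ (ENNReal.tsum_le_tsum hB)
    rw [← ENNReal.ofReal_tsum_of_nonneg (fun n => by positivity) hsum]
    exact ENNReal.ofReal_ne_top
  filter_upwards [ae_eventually_notMem hfin] with ω hω
  obtain ⟨N0, hN0⟩ := Filter.eventually_atTop.mp hω
  exact ⟨N0, fun n hn e he hch => hN0 n hn ⟨e, he, hch⟩⟩

theorem theta : S_NEAR → S_THETA := by
  intro hnear d Ω _ μ X p hd h hsmall
  have hprob : IsProbabilityMeasure μ := h.1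
  let i : Fin d := ⟨0, by omega⟩
  have hp1 : 0 ≤ 1 - p := by
    have : μ.real {ω | X (0, i) ω = true} ≤ 1 := measureReal_le_one
    rw [h.2.2.2 (0, i)] at this; linarith
  have hK : (1 : ℝ) ≤ (d : ℝ) * 3 ^ d := by
    have h1 : (1 : ℝ) ≤ d := by exact_mod_cast (by omega : 1 ≤ d)
    have h2 : (1 : ℝ) ≤ 3 ^ d := one_le_pow₀ (by norm_num)
    nlinarith
  have hq : 1 - p ≤ 1 / 4 := by nlinarith
  have hsub : (Set.univ : Set Ω) ⊆ {ω | (0 : V d) ∈ InfV (opn X ω)} ∪
      ⋃ k : ℕ, {ω | Chain (opn X ω) ((0 : V d) + (k : ℤ) • stp i, i) k} := by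
    intro ω _
    by_cases h0 : (0 : V d) ∈ InfV (opn X ω)
    · exact Or.inl h0
    · obtain ⟨k, -, hk⟩ := hnear d hd (opn X ω) 0 0 i (fun x hx => by
        have : x = 0 := by
          have := eq_zero_of_nm (Nat.le_zero.mp hx)
          simpa using this
        rw [this]; exact h0)
      exact Or.inr (Set.mem_iUnion.mpr ⟨k, hk⟩)
  have h1 : (1 : ENNReal) ≤ μ {ω | (0 : V d) ∈ InfV (opn X ω)} + ENNReal.ofReal (1 / 3) := by
    calc (1 : ENNReal) = μ Set.univ := measure_univ.symm
      _ ≤ μ {ω | (0 : V d) ∈ InfV (opn X ω)} +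
          μ (⋃ k : ℕ, {ω | Chain (opn X ω) ((0 : V d) + (k : ℤ) • stp i, i) k}) :=
        (measure_mono hsub).trans (measure_union_le _ _)
      _ ≤ μ {ω | (0 : V d) ∈ InfV (opn X ω)} + ENNReal.ofReal (1 / 3) := by
        gcongr
        refine (measure_iUnion_le _).trans ?_
        have h2 : ∀ k : ℕ, μ {ω | Chain (opn X ω) ((0 : V d) + (k : ℤ) • stp i, i) k} ≤
            ENNReal.ofReal (1 / 4 * (1 / 4) ^ k) := by
          intro k
          refine (pei d Ω μ X p h _ k).trans (ENNReal.ofReal_le_ofReal ?_)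
          rw [pow_succ, ← mul_assoc, ← mul_pow, mul_comm (1 / 4 : ℝ)]
          exact mul_le_mul (pow_le_pow_left₀ (by positivity) hsmall _) hq hp1 (by positivity)
        refine (ENNReal.tsum_le_tsum h2).trans ?_
        rw [← ENNReal.ofReal_tsum_of_nonneg (fun n => by positivity)
          ((summable_geometric_of_lt_one (by norm_num) (by norm_num)).mul_left _)]
        refine ENNReal.ofReal_le_ofReal ?_
        rw [tsum_mul_left, tsum_geometric_of_lt_one (by norm_num) (by norm_num)]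
        norm_num
  rw [pos_iff_ne_zero]
  intro h0
  rw [h0, zero_add] at h1
  have : ENNReal.ofReal (1 / 3) < 1 := by
    rw [← ENNReal.ofReal_one]
    exact (ENNReal.ofReal_lt_ofReal_iff (by norm_num)).mpr (by norm_num)
  exact absurd h1 (not_le.mpr this)

end Pool.Agent.W932.VG
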