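import Pool.Agent.W932.VG.Min

/-!
# MP_b4265e_pr: comparison of energies
-/

set_option autoImplicit false

open Finset
open scoped Classical
open Pool.Agent.W844.VG

namespace Pool.Agent.W932.VG

variable {d : ℕ}

/-- the graph of open edges inside a ball -/
def lg' (O : Set (E d)) (c : V d) (r : ℕ) : SimpleGraph (V d) where
  Adj s t := (gr O).Adj s t ∧ nm (s - c) ≤ r ∧ nm (t - c) ≤ r
  symm := ⟨fun _ _ h => ⟨h.1.symm, h.2.2, h.2.1⟩⟩
  loopless := ⟨fun _ h => (gr O).loopless.irrefl _ h.1⟩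

lemma mem_tail_support {G : SimpleGraph (V d)} {x y : V d} (p : G.Walk x y) :
    ∀ v ∈ p.support.tail, ∃ u, G.Adj u v := by
  induction p with
  | nil => intro v hv; simp at hv
  | @cons u v w h p ih =>
    intro z hz
    rw [SimpleGraph.Walk.support_cons, List.tail_cons] at hz
    rw [← SimpleGraph.Walk.cons_tail_support] at hz
    rcases List.mem_cons.mp hz with rfl | hz
    · exact ⟨_, h⟩
    · exact ih z hz

/-- absolute value of the gradient on an unordered pair -/
noncomputable def gr2 (f : V d → ℝ) : Sym2 (V d) → ℝ :=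
  Sym2.lift ⟨fun a b => |f a - f b|, fun a b => abs_sub_comm _ _⟩

lemma walk_bound {G : SimpleGraph (V d)} (f : V d → ℝ) {x y : V d} (p : G.Walk x y) :
    |f x - f y| ≤ (p.edges.map (gr2 f)).sum := by
  induction p with
  | nil => simp
  | @cons u v w h p ih =>
    rw [SimpleGraph.Walk.edges_cons, List.map_cons, List.sum_cons]
    have h1 : gr2 f s(u, v) = |f u - f v| := rfl
    rw [h1]
    have h2 := abs_sub_le (f u) (f v) (f w)
    linarith

lemma path_bound (O : Set (E d)) (c : V d) (r : ℕ) (f : V d → ℝ) (x y : V d)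
    (h : JoinIn O c r x y) (T : Finset (V d)) (hT : ∀ w, w ∈ T ↔ nm (w - c) ≤ r) :
    (f x - f y) ^ 2 ≤ (2 * r + 1) ^ d * ∑ w ∈ T, ∑ i, tm O f w i := by
  rcases isEmpty_or_nonempty (Fin d) with hemp | hne
  · have hxy : x = y := Subsingleton.elim x y
    have h0 : 0 ≤ ∑ w ∈ T, ∑ i, tm O f w i := by
      refine sum_nonneg fun w _ => sum_nonneg fun i _ => ?_
      unfold tm; split_ifs <;> positivity
    rw [hxy, sub_self]
    have : (0 : ℝ) ≤ (2 * r + 1) ^ d * ∑ w ∈ T, ∑ i, tm O f w i := mul_nonneg (by positivity) h0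
    simpa using this
  have hre : (lg' O c r).Reachable x y := by
    rw [SimpleGraph.reachable_iff_reflTransGen]; exact h
  obtain ⟨p, hp⟩ := hre.exists_isPath
  have hnd : p.edges.Nodup := hp.isTrail.edges_nodup
  set S := p.edges.toFinset with hS
  have h1 : |f x - f y| ≤ ∑ e ∈ S, gr2 f e := by
    rw [hS, List.sum_toFinset _ hnd]
    exact walk_bound f p
  have hcard : S.card ≤ (2 * r + 1) ^ d := by
    have e1 : S.card = p.support.tail.toFinset.card := by
      rw [hS, List.toFinset_card_of_nodup hnd,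
        List.toFinset_card_of_nodup (hp.support_nodup.sublist (List.tail_sublist _)),
        SimpleGraph.Walk.length_edges, List.length_tail, SimpleGraph.Walk.length_support]
      simp
    rw [e1]
    refine card_ball_le _ c r fun v hv => ?_
    obtain ⟨u, hu⟩ := mem_tail_support p v (List.mem_toFinset.mp hv)
    exact hu.2.2
  -- choose lattice edges
  have hch : ∀ e ∈ S, ∃ q : E d, q.1 ∈ T ∧ q ∈ O ∧ e = s(q.1, q.1 + stp q.2) := by
    intro e he
    have he' : e ∈ (lg' O c r).edgeSet :=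
      SimpleGraph.Walk.edges_subset_edgeSet p (List.mem_toFinset.mp he)
    induction e using Sym2.ind with
    | _ a b =>
      rw [SimpleGraph.mem_edgeSet] at he'
      obtain ⟨⟨i, ⟨hb, hi⟩ | ⟨ha, hi⟩⟩, ha', hb'⟩ := he'
      · exact ⟨(a, i), (hT a).mpr ha', hi, by simp [hb]⟩
      · exact ⟨(b, i), (hT b).mpr hb', hi, by rw [ha]; exact Sym2.eq_swap⟩
  choose! F hF using hch
  have hinj : Set.InjOn F S := by
    intro e1 he1 e2 he2 h12
    rw [(hF e1 he1).2.2, (hF e2 he2).2.2, h12]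
  have h2 : ∑ e ∈ S, gr2 f e ^ 2 ≤ ∑ w ∈ T, ∑ i, tm O f w i := by
    rw [← sum_product']
    calc ∑ e ∈ S, gr2 f e ^ 2 = ∑ e ∈ S, tm O f (F e).1 (F e).2 := by
          refine sum_congr rfl fun e he => ?_
          obtain ⟨-, hb, hc⟩ := hF e he
          have e1 : gr2 f e = |f (F e).1 - f ((F e).1 + stp (F e).2)| := by
            conv_lhs => rw [hc]
            rfl
          rw [e1, sq_abs]
          unfold tm
          rw [if_pos (show ((F e).1, (F e).2) ∈ O from hb)]
          ring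
      _ = ∑ q ∈ S.image F, tm O f q.1 q.2 :=
          (sum_image (f := fun q : E d => tm O f q.1 q.2) hinj).symm
      _ ≤ _ := by
          refine sum_le_sum_of_subset_of_nonneg (fun q hq => ?_) fun q _ _ => ?_
          · obtain ⟨e, he, rfl⟩ := mem_image.mp hq
            exact mem_product.mpr ⟨(hF e he).1, mem_univ _⟩
          · unfold tm; split_ifs <;> positivity
  have h3 : (∑ e ∈ S, gr2 f e) ^ 2 ≤ (S.card : ℝ) * ∑ e ∈ S, gr2 f e ^ 2 :=
    sq_sum_le_card_mul_sum_sq
  have h4 : (f x - f y) ^ 2 ≤ (∑ e ∈ S, gr2 f e) ^ 2 := by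
    rw [← sq_abs (f x - f y)]
    exact pow_le_pow_left₀ (abs_nonneg _) h1 2
  have h5 : (S.card : ℝ) ≤ (2 * r + 1) ^ d := by exact_mod_cast hcard
  have h6 : 0 ≤ ∑ e ∈ S, gr2 f e ^ 2 := sum_nonneg fun _ _ => sq_nonneg _
  calc (f x - f y) ^ 2 ≤ (S.card : ℝ) * ∑ e ∈ S, gr2 f e ^ 2 := h4.trans h3
    _ ≤ (2 * r + 1) ^ d * ∑ e ∈ S, gr2 f e ^ 2 := mul_le_mul_of_nonneg_right h5 h6
    _ ≤ _ := mul_le_mul_of_nonneg_left h2 (by positivity)

lemma sq_le_two_mul_two_pow (k : ℕ) : k ^ 2 ≤ 2 * 2 ^ k := by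
  induction k with
  | zero => norm_num
  | succ k ih =>
    rcases Nat.lt_or_ge k 3 with h | h
    · interval_cases k <;> norm_num
    · have : (k + 1) ^ 2 ≤ 2 * k ^ 2 := by nlinarith
      calc (k + 1) ^ 2 ≤ 2 * k ^ 2 := this
        _ ≤ 2 * (2 * 2 ^ k) := by omega
        _ = 2 * 2 ^ (k + 1) := by ring

lemma ell_comp1 (b : ℕ) (v w : V d) (h : nm (w - v) ≤ b * ell v) :
    ell w ≤ (b ^ 2 + b + 2) * ell v := by
  have h0 := one_le_ell v
  have h1 := nm_le_add w v
  have h2 : ell v ≤ nm v + 2 := Nat.log_le_self 2 _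
  have h3 : nm w + 2 ≤ (nm v + 2) * 2 ^ (b + 1) := by
    have e1 : b * ell v ≤ b * (nm v + 2) := Nat.mul_le_mul_left b h2
    have e2 : b + 1 ≤ 2 ^ (b + 1) := (Nat.lt_two_pow_self).le
    calc nm w + 2 ≤ (nm v + 2) * (b + 1) := by nlinarith
      _ ≤ (nm v + 2) * 2 ^ (b + 1) := Nat.mul_le_mul_left _ e2
  have h4 : ell w ≤ ell v + (b + 1) := by
    calc ell w ≤ Nat.log 2 ((nm v + 2) * 2 ^ (b + 1)) := Nat.log_mono_right h3
      _ = ell v + (b + 1) := by
        unfold ell
        induction b + 1 with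
        | zero => simp
        | succ m ih =>
          rw [pow_succ, ← mul_assoc, Nat.log_mul_base (by norm_num) (by positivity), ih]
          ring
  nlinarith [Nat.zero_le (b ^ 2 * ell v), Nat.zero_le b, Nat.mul_le_mul_left b h0]

lemma ell_comp2 (b : ℕ) (v w : V d) (h : nm (w - v) ≤ b * ell v) :
    ell v ≤ (b ^ 2 + b + 2) * ell w := by
  have h0 := one_le_ell w
  have h1 := nm_le_add v w
  rw [nm_sub_comm] at h1
  have h2 : 2 ^ ell v ≤ nm v + 2 := Nat.pow_log_le_self 2 (by omega)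
  have h2' : ell v ^ 2 ≤ 2 * 2 ^ ell v := sq_le_two_mul_two_pow _
  have h3 : 4 * (b * ell v) ≤ ell v ^ 2 + 4 * b ^ 2 := by
    have : (0 : ℤ) ≤ ((ell v : ℤ) - 2 * b) ^ 2 := sq_nonneg _
    zify
    nlinarith
  have h4 : nm v + 2 ≤ 2 * (nm w + 2) + 2 * b ^ 2 := by omega
  have h5 : nm v + 2 ≤ (nm w + 2) * 2 ^ (b ^ 2 + 1) := by
    have e2 : b ^ 2 + 1 ≤ 2 ^ (b ^ 2) := Nat.lt_two_pow_self
    calc nm v + 2 ≤ (nm w + 2) * (2 * (b ^ 2 + 1)) := by nlinarith
      _ ≤ (nm w + 2) * (2 * 2 ^ (b ^ 2)) := Nat.mul_le_mul_left _ (Nat.mul_le_mul_left _ e2)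
      _ = (nm w + 2) * 2 ^ (b ^ 2 + 1) := by ring
  have h6 : ell v ≤ ell w + (b ^ 2 + 1) := by
    calc ell v ≤ Nat.log 2 ((nm w + 2) * 2 ^ (b ^ 2 + 1)) := Nat.log_mono_right h5
      _ = ell w + (b ^ 2 + 1) := by
        unfold ell
        induction b ^ 2 + 1 with
        | zero => simp
        | succ m ih =>
          rw [pow_succ, ← mul_assoc, Nat.log_mul_base (by norm_num) (by positivity), ih]
          ring
  nlinarith [Nat.zero_le (b * ell w), Nat.mul_le_mul_left (b ^ 2) h0]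

theorem wen : S_WEN := by
  intro d O a b ha hjoin φ hφ
  set C : ℕ := b ^ 2 + b + 2 with hC
  have hCpos : 0 < C := by omega
  refine ⟨((d : ℝ) + 1) * (2 * b + 1) ^ d * (C : ℝ) ^ d * (2 * b * C + 1) ^ d, by positivity, ?_⟩
  set A : ℝ := ((d : ℝ) + 1) * (2 * b + 1) ^ d * (C : ℝ) ^ d * (2 * b * C + 1) ^ d with hA
  have hApos : 0 < A := by rw [hA]; positivity
  intro f B hB M
  set M' := M + b * Nat.log 2 (M + 2) with hM'
  let t : V d → ℝ := fun w => ∑ i, tm O f w i
  have ht : ∀ w, 0 ≤ t w := fun w => sum_nonneg fun i _ => by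
    unfold tm; split_ifs <;> positivity
  have hjn : ∀ v i, JoinIn O v (b * ell v) (φ (v + stp i)) (φ v) := by
    intro v i
    have e0 := one_le_ell v
    have e1 := (hφ v).2
    have e2 := (hφ (v + stp i)).2
    have e3 := ell_add_stp_le v i
    have e4 : a * ell (v + stp i) ≤ a * (ell v + 1) := Nat.mul_le_mul_left a e3
    have e5 : nm (φ (v + stp i) - v) ≤ nm (φ (v + stp i) - (v + stp i)) + 1 := by
      have := nm_tri (φ (v + stp i)) (v + stp i) v
      rwa [add_sub_cancel_left, nm_stp] at this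
    have e6 : a ≤ a * ell v := Nat.le_mul_of_pos_right a e0
    refine hjoin v _ _ (hφ _).1 (hφ _).1 ?_ ?_
    · calc nm (φ (v + stp i) - v) ≤ a * (ell v + 1) + 1 := by omega
        _ ≤ 3 * a * ell v := by nlinarith
    · calc nm (φ v - v) ≤ a * ell v := e1
        _ ≤ 3 * a * ell v := by nlinarith
  have hK : ∀ v ∈ box d M, ∀ i, (f (φ (v + stp i)) - f (φ v)) ^ 2 ≤
      (2 * b + 1) ^ d * (ell v : ℝ) ^ d *
        ∑ w ∈ box d M', if nm (w - v) ≤ b * ell v then t w else 0 := by
    intro v hv i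
    have e0 := one_le_ell v
    have e1 := path_bound O v (b * ell v) f _ _ (hjn v i)
      ((box d M').filter fun w => nm (w - v) ≤ b * ell v) ?_
    · rw [sum_filter] at e1
      refine e1.trans ?_
      refine mul_le_mul_of_nonneg_right ?_ (sum_nonneg fun w _ => ?_)
      · rw [← mul_pow]
        refine pow_le_pow_left₀ (by positivity) ?_ d
        have : (1 : ℝ) ≤ ell v := by exact_mod_cast e0
        push_cast
        nlinarith
      · split_ifs
        · exact ht w
        · exact le_rfl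
    · intro w
      rw [mem_filter, mem_box]
      refine ⟨fun h => h.2, fun h => ⟨?_, h⟩⟩
      have e2 := nm_le_add w v
      rw [mem_box] at hv
      have e3 : ell v ≤ Nat.log 2 (M + 2) := Nat.log_mono_right (by omega)
      have e4 : b * ell v ≤ b * Nat.log 2 (M + 2) := Nat.mul_le_mul_left b e3
      omega
  have hinner : ∀ w, ∑ v ∈ box d M, (if nm (w - v) ≤ b * ell v then
      (d : ℝ) * ((2 * b + 1) ^ d * (ell v : ℝ) ^ d) / (A * (ell v : ℝ) ^ (2 * d)) else 0) ≤ 1 := by
    intro w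
    have hw1 : (0 : ℝ) < ell w := by exact_mod_cast one_le_ell w
    rw [← sum_filter]
    have hterm : ∀ v ∈ (box d M).filter (fun v => nm (w - v) ≤ b * ell v),
        (d : ℝ) * ((2 * b + 1) ^ d * (ell v : ℝ) ^ d) / (A * (ell v : ℝ) ^ (2 * d)) ≤
          (d : ℝ) * (2 * b + 1) ^ d * (C : ℝ) ^ d / (A * (ell w : ℝ) ^ d) := by
      intro v hv
      have hv' := (mem_filter.mp hv).2
      have hv1 : (0 : ℝ) < ell v := by exact_mod_cast one_le_ell v
      have e1 : (ell w : ℝ) ≤ C * ell v := by exact_mod_cast ell_comp1 b v w hv'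
      have e2 : (ell w : ℝ) ^ d ≤ (C : ℝ) ^ d * (ell v : ℝ) ^ d := by
        rw [← mul_pow]; exact pow_le_pow_left₀ hw1.le e1 d
      rw [div_le_div_iff₀ (by positivity) (by positivity)]
      have e3 : (ell v : ℝ) ^ (2 * d) = (ell v : ℝ) ^ d * (ell v : ℝ) ^ d := by
        rw [two_mul, pow_add]
      rw [e3]
      calc (d : ℝ) * ((2 * b + 1) ^ d * (ell v : ℝ) ^ d) * (A * (ell w : ℝ) ^ d)
          = ((d : ℝ) * (2 * b + 1) ^ d * A * (ell v : ℝ) ^ d) * (ell w : ℝ) ^ d := by ring
        _ ≤ ((d : ℝ) * (2 * b + 1) ^ d * A * (ell v : ℝ) ^ d) *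
            ((C : ℝ) ^ d * (ell v : ℝ) ^ d) := mul_le_mul_of_nonneg_left e2 (by positivity)
        _ = _ := by ring
    have hcard : (((box d M).filter (fun v => nm (w - v) ≤ b * ell v)).card : ℝ) ≤
        (2 * b * C + 1) ^ d * (ell w : ℝ) ^ d := by
      have e1 : ((box d M).filter (fun v => nm (w - v) ≤ b * ell v)).card ≤
          (2 * (b * (C * ell w)) + 1) ^ d := by
        refine card_ball_le _ w _ fun v hv => ?_
        have hv' := (mem_filter.mp hv).2
        rw [nm_sub_comm]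
        exact hv'.trans (Nat.mul_le_mul_left b (ell_comp2 b v w hv'))
      have e2 : (((box d M).filter (fun v => nm (w - v) ≤ b * ell v)).card : ℝ) ≤
          (2 * (b * (C * ell w)) + 1) ^ d := by exact_mod_cast e1
      refine e2.trans ?_
      rw [← mul_pow]
      refine pow_le_pow_left₀ (by positivity) ?_ d
      have : (1 : ℝ) ≤ ell w := by exact_mod_cast one_le_ell w
      nlinarith
    refine (sum_le_card_nsmul _ _ _ hterm).trans ?_
    rw [nsmul_eq_mul]
    refine (mul_le_mul_of_nonneg_right hcard (by positivity)).trans ?_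
    rw [mul_div_assoc', div_le_one (by positivity), hA]
    have e1 : (0 : ℝ) ≤ (2 * b * C + 1) ^ d * (ell w : ℝ) ^ d * ((2 * b + 1) ^ d * (C : ℝ) ^ d) := by
      positivity
    nlinarith
  calc ∑ v ∈ box d M, ∑ i : Fin d,
        (f (φ (v + stp i)) - f (φ v)) ^ 2 / (A * (ell v : ℝ) ^ (2 * d))
      ≤ ∑ v ∈ box d M, ∑ w ∈ box d M', (if nm (w - v) ≤ b * ell v then
          (d : ℝ) * ((2 * b + 1) ^ d * (ell v : ℝ) ^ d) / (A * (ell v : ℝ) ^ (2 * d)) else 0) *
            t w := by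
        refine sum_le_sum fun v hv => ?_
        have hv1 : (0 : ℝ) < ell v := by exact_mod_cast one_le_ell v
        calc ∑ i : Fin d, (f (φ (v + stp i)) - f (φ v)) ^ 2 / (A * (ell v : ℝ) ^ (2 * d))
            ≤ ∑ _i : Fin d, ((2 * b + 1) ^ d * (ell v : ℝ) ^ d *
              ∑ w ∈ box d M', if nm (w - v) ≤ b * ell v then t w else 0) /
                (A * (ell v : ℝ) ^ (2 * d)) := by
              refine sum_le_sum fun i _ => ?_
              exact div_le_div_of_nonneg_right (hK v hv i) (by positivity)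
          _ = (d : ℝ) * ((2 * b + 1) ^ d * (ell v : ℝ) ^ d) / (A * (ell v : ℝ) ^ (2 * d)) *
              ∑ w ∈ box d M', if nm (w - v) ≤ b * ell v then t w else 0 := by
              rw [sum_const, card_univ, Fintype.card_fin, nsmul_eq_mul]; ring
          _ = _ := by
              rw [mul_sum]
              refine sum_congr rfl fun w _ => ?_
              split_ifs <;> simp
    _ = ∑ w ∈ box d M', (∑ v ∈ box d M, (if nm (w - v) ≤ b * ell v then
          (d : ℝ) * ((2 * b + 1) ^ d * (ell v : ℝ) ^ d) / (A * (ell v : ℝ) ^ (2 * d)) else 0)) *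
            t w := by
        rw [sum_comm]
        exact sum_congr rfl fun w _ => (sum_mul _ _ _).symm
    _ ≤ ∑ w ∈ box d M', 1 * t w := by
        exact sum_le_sum fun w _ => mul_le_mul_of_nonneg_right (hinner w) (ht w)
    _ = en O f M' := by
        simp only [one_mul]; rfl
    _ ≤ B := hB M'

end Pool.Agent.W932.VG
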